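import Mathlib

set_option autoImplicit false

namespace Pool.Agent.Results.MP_4cdc07_co.MaxMultiplicity

open Finset

/-- The vector space `F_2^n`. -/
abbrev V (n : ℕ) := Fin n → ZMod 2

/-- The standard inner product on `F_2^n`. -/
def ip {n : ℕ} (u x : V n) : ZMod 2 := ∑ i, u i * x i

/-- `(-1)^e`, as an integer. -/
def sgn (e : ZMod 2) : ℤ := if e = 0 then 1 else -1

/-- The Walsh transform `W_F(u,v) = ∑_x (-1)^{u·x+v·F(x)}`. -/
def walsh {n : ℕ} (F : V n → V n) (u v : V n) : ℤ := ∑ x, sgn (ip v (F x) + ip u x)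

/-- `F` is APN: for `a ≠ 0` and all `b` the equation `F(x)+F(x+a)=b` has at most `2` solutions. -/
def IsAPN {n : ℕ} (F : V n → V n) : Prop :=
  ∀ a : V n, a ≠ 0 → ∀ b : V n, (univ.filter fun x => F x + F (x + a) = b).card ≤ 2

/-- `F` is plateaued: for every `v ≠ 0` there is a real `l ≥ 0` with `W_F(u,v) ∈ {0, l, -l}` for
all `u`. -/
def IsPlateaued {n : ℕ} (F : V n → V n) : Prop :=
  ∀ v : V n, v ≠ 0 → ∃ l : ℝ, 0 ≤ l ∧ ∀ u : V n,
    (walsh F u v : ℝ) = 0 ∨ (walsh F u v : ℝ) = l ∨ (walsh F u v : ℝ) = -l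

/-- `F` is quadratic: every derivative `x ↦ F(x) + F(x+a)` is an affine map. -/
def IsQuadratic {n : ℕ} (F : V n → V n) : Prop :=
  ∀ a : V n, ∃ (L : V n →ₗ[ZMod 2] V n) (c : V n), ∀ x, F x + F (x + a) = L x + c

/-- The graph `G_F` of `F`, a subset of `F_2^n × F_2^n`. -/
def graph {n : ℕ} (F : V n → V n) : Finset (V n × V n) := univ.image fun x => (x, F x)

/-- The exclude multiplicity of `p`: the number of 3-element subsets of `G_F` with sum `p`. -/
def excludeMult {n : ℕ} (F : V n → V n) (p : V n × V n) : ℕ :=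
  (((graph F).powersetCard 3).filter fun T => ∑ q ∈ T, q = p).card

/-! ### signs and characters -/

lemma sgn_add (a b : ZMod 2) : sgn (a + b) = sgn a * sgn b := by
  revert a b; unfold sgn; decide

lemma sgn_zero : sgn 0 = 1 := by simp [sgn]

lemma sgn_sq (a : ZMod 2) : sgn a * sgn a = 1 := by
  revert a; unfold sgn; decide

variable {n : ℕ}

lemma ip_add_right (u x y : V n) : ip u (x + y) = ip u x + ip u y := by
  simp [ip, mul_add, Finset.sum_add_distrib]

lemma ip_add_left (u v x : V n) : ip (u + v) x = ip u x + ip v x := by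
  simp [ip, add_mul, Finset.sum_add_distrib]

lemma ip_zero_left (x : V n) : ip 0 x = 0 := by simp [ip]

lemma ip_zero_right (x : V n) : ip x 0 = 0 := by simp [ip]

lemma add_self (x : V n) : x + x = 0 := by
  funext i; exact CharTwo.add_self_eq_zero (x i)

lemma add_eq_zero' (x y : V n) : x + y = 0 ↔ x = y := by
  constructor
  · intro h
    have : x + y + y = 0 + y := by rw [h]
    rwa [add_assoc, add_self, add_zero, zero_add] at this
  · rintro rfl; exact add_self x

lemma card_V : Fintype.card (V n) = 2 ^ n := by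
  simp [V]

/-- orthogonality -/
lemma sum_sgn (x : V n) : ∑ u : V n, sgn (ip u x) = if x = 0 then 2 ^ n else 0 := by
  split_ifs with h
  · subst h
    simp [ip_zero_right, sgn_zero]
  · obtain ⟨i, hi⟩ : ∃ i, x i ≠ 0 := by
      by_contra hcon
      push Not at hcon
      exact h (funext hcon)
    have hi1 : x i = 1 := by
      revert hi; generalize x i = t; revert t; decide
    have hflip : ∀ u : V n, sgn (ip (u + Pi.single i 1) x) = - sgn (ip u x) := by
      intro u
      rw [ip_add_left, sgn_add]
      have : ip (Pi.single i 1 : V n) x = 1 := by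
        simp [ip, Pi.single_apply, hi1]
      rw [this]
      simp [sgn]
    have h1 : ∑ u : V n, sgn (ip u x) = ∑ u : V n, sgn (ip (u + Pi.single i 1) x) :=
      (Equiv.sum_comp (Equiv.addRight (Pi.single i 1 : V n)) (fun u => sgn (ip u x))).symm
    have h2 : ∑ u : V n, sgn (ip (u + Pi.single i 1) x) = - ∑ u : V n, sgn (ip u x) := by
      rw [← Finset.sum_neg_distrib]
      exact Finset.sum_congr rfl fun u _ => hflip u
    linarith [h1, h2]

lemma sum_sgn' (x : V n) : ∑ v : V n, sgn (ip v x) = if x = 0 then 2 ^ n else 0 := sum_sgn x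

/-- the sign function attached to a component -/
def g (F : V n → V n) (v x : V n) : ℤ := sgn (ip v (F x))

lemma walsh_eq (F : V n → V n) (u v : V n) :
    walsh F u v = ∑ x, g F v x * sgn (ip u x) := by
  unfold walsh g
  exact Finset.sum_congr rfl fun x _ => sgn_add _ _

lemma inv_one (F : V n → V n) (v a : V n) :
    ∑ u, walsh F u v * sgn (ip u a) = 2 ^ n * g F v a := by
  have h1 : ∀ u : V n, walsh F u v * sgn (ip u a) = ∑ x, g F v x * sgn (ip u (x + a)) := by
    intro u
    rw [walsh_eq, Finset.sum_mul]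
    refine Finset.sum_congr rfl fun x _ => ?_
    rw [ip_add_right, sgn_add]; ring
  rw [Finset.sum_congr rfl fun u _ => h1 u, Finset.sum_comm]
  have h2 : ∀ x : V n, ∑ u : V n, g F v x * sgn (ip u (x + a)) =
      if x = a then 2 ^ n * g F v a else 0 := by
    intro x
    rw [← Finset.mul_sum, sum_sgn]
    by_cases hx : x = a
    · subst hx; simp [add_self]; ring
    · have : x + a ≠ 0 := fun h => hx ((add_eq_zero' x a).1 h)
      simp [hx, this]
  rw [Finset.sum_congr rfl fun x _ => h2 x]
  simp

lemma parseval (F : V n → V n) (v : V n) :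
    ∑ u, walsh F u v * walsh F u v = 2 ^ n * 2 ^ n := by
  have h1 : ∀ u : V n, walsh F u v * walsh F u v = ∑ a, g F v a * (walsh F u v * sgn (ip u a)) := by
    intro u
    conv_lhs => rw [walsh_eq F u v]
    rw [← walsh_eq F u v, walsh_eq F u v, Finset.sum_mul]
    refine Finset.sum_congr rfl fun a _ => ?_
    ring
  rw [Finset.sum_congr rfl fun u _ => h1 u, Finset.sum_comm]
  have h2 : ∀ a : V n, ∑ u : V n, g F v a * (walsh F u v * sgn (ip u a)) = 2 ^ n := by
    intro a
    rw [← Finset.mul_sum, inv_one]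
    have := sgn_sq (ip v (F a))
    unfold g
    linear_combination (2 ^ n) * this
  rw [Finset.sum_congr rfl fun a _ => h2 a]
  simp

/-- structure of the components of a plateaued function -/
lemma plateaued_structure (F : V n → V n) (hP : IsPlateaued F) (v : V n) (hv : v ≠ 0) :
    ∃ t : ℕ, n ≤ 2 * t ∧
      (∀ u, walsh F u v = 0 ∨ walsh F u v = 2 ^ t ∨ walsh F u v = -2 ^ t) ∧
      (2 * t = n → ∀ u, walsh F u v ≠ 0) := by
  obtain ⟨l, hl0, hl⟩ := hP v hv
  have hex : ∃ u0, walsh F u0 v ≠ 0 := by
    by_contra hcon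
    push Not at hcon
    have h := parseval F v
    simp only [hcon, mul_zero, Finset.sum_const_zero] at h
    have : (0 : ℤ) < 2 ^ n * 2 ^ n := by positivity
    omega
  obtain ⟨u0, hu0⟩ := hex
  obtain ⟨m, hm⟩ : ∃ m : ℕ, l = (m : ℝ) := by
    rcases hl u0 with h | h | h
    · exact absurd (by exact_mod_cast h) hu0
    · have h0 : 0 ≤ walsh F u0 v := by
        have : (0 : ℝ) ≤ (walsh F u0 v : ℝ) := by rw [h]; exact hl0
        exact_mod_cast this
      refine ⟨(walsh F u0 v).toNat, ?_⟩
      have : (((walsh F u0 v).toNat : ℤ)) = walsh F u0 v := Int.toNat_of_nonneg h0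
      rw [← h]; exact_mod_cast this.symm
    · have h0 : 0 ≤ - walsh F u0 v := by
        have : (0 : ℝ) ≤ -(walsh F u0 v : ℝ) := by rw [h]; simpa using hl0
        exact_mod_cast this
      refine ⟨(- walsh F u0 v).toNat, ?_⟩
      have h2 : (((- walsh F u0 v).toNat : ℤ)) = - walsh F u0 v := Int.toNat_of_nonneg h0
      have h3 : (((- walsh F u0 v).toNat : ℕ) : ℝ) = -(walsh F u0 v : ℝ) := by exact_mod_cast h2
      rw [h3, h]; ring
  have hW : ∀ u, walsh F u v = 0 ∨ walsh F u v = (m : ℤ) ∨ walsh F u v = -(m : ℤ) := by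
    intro u
    rcases hl u with h | h | h
    · left; exact_mod_cast h
    · right; left; rw [hm] at h; exact_mod_cast h
    · right; right; rw [hm] at h; exact_mod_cast h
  have hs : m ^ 2 * (univ.filter fun u => walsh F u v ≠ 0).card = (2 ^ n) ^ 2 := by
    have h := parseval F v
    have h2 : ∀ u : V n, walsh F u v * walsh F u v =
        if walsh F u v ≠ 0 then (m : ℤ) ^ 2 else 0 := by
      intro u
      by_cases h0 : walsh F u v = 0
      · simp [h0]
      · rw [if_pos h0]
        rcases hW u with h | h | h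
        · exact absurd h h0
        · rw [h]; ring
        · rw [h]; ring
    rw [Finset.sum_congr rfl fun u _ => h2 u, ← Finset.sum_filter, Finset.sum_const,
      nsmul_eq_mul] at h
    have h3 : ((m ^ 2 * (univ.filter fun u => walsh F u v ≠ 0).card : ℕ) : ℤ) =
        (((2 ^ n) ^ 2 : ℕ) : ℤ) := by
      push_cast
      linarith
    exact_mod_cast h3
  have hsle : (univ.filter fun u => walsh F u v ≠ 0).card ≤ 2 ^ n := by
    calc (univ.filter fun u => walsh F u v ≠ 0).card ≤ (univ : Finset (V n)).card :=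
          Finset.card_filter_le _ _
      _ = 2 ^ n := by rw [Finset.card_univ, card_V]
  have hmdvd : m ∣ 2 ^ n :=
    (Nat.pow_dvd_pow_iff two_ne_zero).1 (Dvd.intro _ hs)
  obtain ⟨t, ht, hmt⟩ := (Nat.dvd_prime_pow Nat.prime_two).1 hmdvd
  subst hmt
  refine ⟨t, ?_, ?_, ?_⟩
  · by_contra hcon
    push Not at hcon
    have h4 : (2 ^ n) ^ 2 ≤ (2 ^ t) ^ 2 * 2 ^ n := by
      rw [← hs]; exact Nat.mul_le_mul_left _ hsle
    rw [← pow_mul, ← pow_mul, ← pow_add] at h4
    have := (Nat.pow_le_pow_iff_right (by norm_num : 1 < 2)).1 h4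
    omega
  · intro u
    have := hW u
    push_cast at this
    exact this
  · intro h2t u hu
    have hcard : (univ.filter fun u => walsh F u v ≠ 0).card = 2 ^ n := by
      have h5 : (2 ^ t) ^ 2 = 2 ^ n := by rw [← pow_mul, mul_comm t 2, h2t]
      rw [h5] at hs
      have h6 : 2 ^ n * (univ.filter fun u => walsh F u v ≠ 0).card = 2 ^ n * 2 ^ n := by
        rw [hs]; ring
      exact Nat.eq_of_mul_eq_mul_left (by positivity) h6
    have huniv : (univ.filter fun u => walsh F u v ≠ 0) = univ := by
      apply Finset.eq_univ_of_card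
      rw [hcard, card_V]
    have : u ∈ (univ.filter fun u => walsh F u v ≠ 0) := by rw [huniv]; exact mem_univ _
    exact (Finset.mem_filter.1 this).2 hu


/-- For plateaued `F` and `n ≥ 3`, the sum of all values of `F` is zero. -/
lemma sum_zero_of_plateaued (F : V n → V n) (hn : 3 ≤ n) (hP : IsPlateaued F) :
    ∑ x, F x = 0 := by
  have key : ∀ v : V n, ip v (∑ x, F x) = 0 := by
    intro v
    have hsum : ip v (∑ x, F x) = ∑ x, ip v (F x) := by
      unfold ip
      rw [Finset.sum_comm]
      refine Finset.sum_congr rfl fun i _ => ?_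
      rw [Finset.sum_apply, Finset.mul_sum]
    by_cases hv : v = 0
    · subst hv; exact ip_zero_left _
    · obtain ⟨t, h1, h2, -⟩ := plateaued_structure F hP v hv
      have h4 : (4 : ℤ) ∣ walsh F 0 v := by
        have ht : (4 : ℤ) ∣ 2 ^ t := by
          have : (2 : ℤ) ^ t = 4 * 2 ^ (t - 2) := by
            rw [show (4 : ℤ) = 2 ^ 2 by norm_num, ← pow_add]; congr 1; omega
          rw [this]; exact dvd_mul_right _ _
        rcases h2 0 with h | h | h
        · rw [h]; exact dvd_zero _
        · rw [h]; exact ht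
        · rw [h]; exact ht.neg_right
      have hw : walsh F 0 v =
          2 ^ n - 2 * ((univ.filter fun x => ip v (F x) ≠ 0).card : ℤ) := by
        unfold walsh
        have h5 : ∀ x : V n, sgn (ip v (F x) + ip 0 x) =
            1 - 2 * (if ip v (F x) ≠ 0 then 1 else 0) := by
          intro x
          rw [ip_zero_left, add_zero]
          unfold sgn
          by_cases h6 : ip v (F x) = 0
          · simp [h6]
          · simp [h6]
        rw [Finset.sum_congr rfl fun x _ => h5 x, Finset.sum_sub_distrib, ← Finset.mul_sum,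
          Finset.sum_boole]
        simp
      have h2n : (4 : ℤ) ∣ 2 ^ n := by
        have : (2 : ℤ) ^ n = 4 * 2 ^ (n - 2) := by
          rw [show (4 : ℤ) = 2 ^ 2 by norm_num, ← pow_add]; congr 1; omega
        rw [this]; exact dvd_mul_right _ _
      have heven : Even (univ.filter fun x => ip v (F x) ≠ 0).card := by
        rw [hw] at h4
        obtain ⟨r, hr⟩ := h4
        obtain ⟨s, hs⟩ := h2n
        rw [hs] at hr
        rw [even_iff_two_dvd]
        have : (2 : ℤ) ∣ ((univ.filter fun x => ip v (F x) ≠ 0).card : ℤ) :=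
          ⟨s - r, by linarith⟩
        exact_mod_cast this
      rw [hsum]
      have h7 : ∀ x : V n, ip v (F x) = if ip v (F x) ≠ 0 then (1 : ZMod 2) else 0 := by
        intro x
        generalize ip v (F x) = e
        revert e; decide
      rw [Finset.sum_congr rfl fun x _ => h7 x, Finset.sum_boole]
      exact (ZMod.natCast_eq_zero_iff_even).2 heven
  funext i
  have := key (Pi.single i 1)
  unfold ip at this
  simpa [Pi.single_apply] using this

/-- halving a sum along a coordinate -/
lemma halve (h : V n → V n) (i : Fin n) (P : V n → Prop) [DecidablePred P]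
    (hP : ∀ x, P (x + Pi.single i 1) ↔ P x) :
    ∑ x ∈ univ.filter P, h x =
      ∑ x ∈ univ.filter (fun x => P x ∧ x i = 0), (h x + h (x + Pi.single i 1)) := by
  rw [← Finset.sum_filter_add_sum_filter_not (univ.filter P) (fun x => x i = 0),
    Finset.sum_add_distrib, Finset.filter_filter, Finset.filter_filter]
  congr 1
  have hz : ∀ e : ZMod 2, e ≠ 0 → e + 1 = 0 := by decide
  refine Finset.sum_nbij' (fun x => x + Pi.single i 1) (fun x => x + Pi.single i 1) ?_ ?_ ?_ ?_ ?_
  · intro x hx
    simp only [Finset.mem_filter, Finset.mem_univ, true_and] at hx ⊢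
    refine ⟨(hP x).2 hx.1, ?_⟩
    simp only [Pi.add_apply, Pi.single_eq_same]
    exact hz _ hx.2
  · intro x hx
    simp only [Finset.mem_filter, Finset.mem_univ, true_and] at hx ⊢
    refine ⟨(hP x).2 hx.1, ?_⟩
    simp only [Pi.add_apply, Pi.single_eq_same, hx.2, zero_add]
    decide
  · intro x _
    rw [add_assoc, add_self, add_zero]
  · intro x _
    rw [add_assoc, add_self, add_zero]
  · intro x _
    rw [add_assoc, add_self, add_zero]

/-- For quadratic `F` and `n ≥ 3`, the sum of all values of `F` is zero. -/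
lemma sum_zero_of_quadratic (F : V n → V n) (hn : 3 ≤ n) (hQ : IsQuadratic F) :
    ∑ x, F x = 0 := by
  set i0 : Fin n := ⟨0, by omega⟩ with hi0
  set i1 : Fin n := ⟨1, by omega⟩ with hi1
  set i2 : Fin n := ⟨2, by omega⟩ with hi2
  have h01 : i1 ≠ i0 := by simp [hi0, hi1]
  have h02 : i2 ≠ i0 := by simp [hi0, hi2]
  have h12 : i2 ≠ i1 := by simp [hi1, hi2]
  have hs0 : ∑ x, F x = ∑ x ∈ univ.filter (fun _ : V n => True), F x := by simp
  have e1 : ∑ x, F x = ∑ x ∈ univ.filter (fun x : V n => x i0 = 0),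
      (F x + F (x + Pi.single i0 1)) := by
    rw [hs0, halve F i0 (fun _ => True) (fun _ => Iff.rfl)]
    refine Finset.sum_congr ?_ (fun _ _ => rfl)
    ext x; simp
  have e2 : ∑ x ∈ univ.filter (fun x : V n => x i0 = 0), (F x + F (x + Pi.single i0 1)) =
      ∑ x ∈ univ.filter (fun x : V n => x i0 = 0 ∧ x i1 = 0),
        (F x + F (x + Pi.single i0 1) +
          (F (x + Pi.single i1 1) + F (x + Pi.single i1 1 + Pi.single i0 1))) := by
    exact halve (fun x => F x + F (x + Pi.single i0 1)) i1 (fun x => x i0 = 0) (by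
      intro x
      simp [h01.symm])
  have e3 := halve (fun x => F x + F (x + Pi.single i0 1) +
      (F (x + Pi.single i1 1) + F (x + Pi.single i1 1 + Pi.single i0 1))) i2
      (fun x => x i0 = 0 ∧ x i1 = 0) (by
    intro x
    simp [h02.symm, h12.symm])
  rw [e1, e2, e3]
  refine Finset.sum_eq_zero fun x _ => ?_
  obtain ⟨L, c, hL⟩ := hQ (Pi.single i0 1)
  rw [hL x, hL (x + Pi.single i1 1), hL (x + Pi.single i2 1),
    hL (x + Pi.single i2 1 + Pi.single i1 1)]
  simp only [map_add]
  have e : L x + c + (L x + L (Pi.single i1 1) + c) +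
      (L x + L (Pi.single i2 1) + c +
        (L x + L (Pi.single i2 1) + L (Pi.single i1 1) + c)) =
      ((L x + L x) + (L x + L x)) + ((c + c) + (c + c)) +
        (L (Pi.single i1 1) + L (Pi.single i1 1)) +
        (L (Pi.single i2 1) + L (Pi.single i2 1)) := by abel
  rw [e]
  simp only [add_self, add_zero]

lemma mem_graph (F : V n → V n) (p : V n × V n) : p ∈ graph F ↔ p.2 = F p.1 := by
  unfold graph
  simp only [mem_image, mem_univ, true_and]
  constructor
  · rintro ⟨x, rfl⟩; rfl
  · intro h; exact ⟨p.1, by rw [← h]⟩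

/-- The triples in the graph with a given sum `p ∉ G_F` through a given point: at most one. -/
lemma triple_unique (F : V n → V n) (hA : IsAPN F) (p g : V n × V n)
    (S S' : Finset (V n × V n)) (hS : S ⊆ graph F) (hS3 : S.card = 3) (hSp : ∑ q ∈ S, q = p)
    (hS' : S' ⊆ graph F) (hS3' : S'.card = 3) (hSp' : ∑ q ∈ S', q = p)
    (hg : g ∈ S) (hg' : g ∈ S') : S = S' := by
  classical
  have hc : (S.erase g).card = 2 := by rw [Finset.card_erase_of_mem hg, hS3]
  have hc' : (S'.erase g).card = 2 := by rw [Finset.card_erase_of_mem hg', hS3']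
  obtain ⟨h, k, hhk, hSe⟩ := Finset.card_eq_two.1 hc
  obtain ⟨h', k', hhk', hSe'⟩ := Finset.card_eq_two.1 hc'
  have hhS : h ∈ S := Finset.mem_of_mem_erase (by rw [hSe]; simp)
  have hkS : k ∈ S := Finset.mem_of_mem_erase (by rw [hSe]; simp)
  have hhS' : h' ∈ S' := Finset.mem_of_mem_erase (by rw [hSe']; simp)
  have hkS' : k' ∈ S' := Finset.mem_of_mem_erase (by rw [hSe']; simp)
  have gh := (mem_graph F h).1 (hS hhS)
  have gk := (mem_graph F k).1 (hS hkS)
  have gh' := (mem_graph F h').1 (hS' hhS')
  have gk' := (mem_graph F k').1 (hS' hkS')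
  have hsum : h + k = h' + k' := by
    have e1 : g + (h + k) = p := by
      rw [← hSp, ← Finset.add_sum_erase S (fun q => q) hg, hSe, Finset.sum_pair hhk]
    have e2 : g + (h' + k') = p := by
      rw [← hSp', ← Finset.add_sum_erase S' (fun q => q) hg', hSe', Finset.sum_pair hhk']
    exact add_left_cancel (e1.trans e2.symm)
  have hs1 : h.1 + k.1 = h'.1 + k'.1 := by
    have := congrArg Prod.fst hsum; simpa using this
  have hs2 : F h.1 + F k.1 = F h'.1 + F k'.1 := by
    have := congrArg Prod.snd hsum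
    simp only [Prod.snd_add] at this
    rw [gh, gk, gh', gk'] at this
    exact this
  have ne1 : h.1 ≠ k.1 := by
    intro e; apply hhk; apply Prod.ext e; rw [gh, gk, e]
  have ne2 : h'.1 ≠ k'.1 := by
    intro e; apply hhk'; apply Prod.ext e; rw [gh', gk', e]
  set s := h.1 + k.1 with hs
  have hs0 : s ≠ 0 := fun e => ne1 ((add_eq_zero' _ _).1 e)
  set T := univ.filter fun x => F x + F (x + s) = F h.1 + F k.1 with hT
  have hTc : T.card ≤ 2 := hA s hs0 _
  have m1 : h.1 ∈ T := by
    rw [hT, Finset.mem_filter]; refine ⟨mem_univ _, ?_⟩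
    rw [hs, ← add_assoc, add_self, zero_add]
  have m2 : k.1 ∈ T := by
    rw [hT, Finset.mem_filter]; refine ⟨mem_univ _, ?_⟩
    have : k.1 + s = h.1 := by rw [hs, add_comm h.1 k.1, ← add_assoc, add_self, zero_add]
    rw [this, add_comm]
  have m3 : h'.1 ∈ T := by
    rw [hT, Finset.mem_filter]; refine ⟨mem_univ _, ?_⟩
    rw [hs1, ← add_assoc, add_self, zero_add]; exact hs2.symm
  have m4 : k'.1 ∈ T := by
    rw [hT, Finset.mem_filter]; refine ⟨mem_univ _, ?_⟩
    have : k'.1 + s = h'.1 := by rw [hs1, add_comm h'.1 k'.1, ← add_assoc, add_self, zero_add]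
    rw [this, add_comm]; exact hs2.symm
  have hTe : ({h.1, k.1} : Finset (V n)) = T := by
    apply Finset.eq_of_subset_of_card_le
    · intro x hx
      simp only [Finset.mem_insert, Finset.mem_singleton] at hx
      rcases hx with rfl | rfl
      · exact m1
      · exact m2
    · rw [Finset.card_pair ne1]; exact hTc
  rw [← hTe] at m3 m4
  simp only [Finset.mem_insert, Finset.mem_singleton] at m3 m4
  have hpair : ({h, k} : Finset (V n × V n)) = {h', k'} := by
    rcases m3 with e3 | e3
    · rcases m4 with e4 | e4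
      · exact absurd (e3.trans e4.symm) ne2
      · have E3 : h' = h := by apply Prod.ext e3; rw [gh', gh, e3]
        have E4 : k' = k := by apply Prod.ext e4; rw [gk', gk, e4]
        rw [E3, E4]
    · rcases m4 with e4 | e4
      · have E3 : h' = k := by apply Prod.ext e3; rw [gh', gk, e3]
        have E4 : k' = h := by apply Prod.ext e4; rw [gk', gh, e4]
        rw [E3, E4, Finset.pair_comm]
      · exact absurd (e3.trans e4.symm) ne2
  rw [← Finset.insert_erase hg, ← Finset.insert_erase hg', hSe, hSe', hpair]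

/-- **Combinatorial core.** If `n` is even, `F` is APN and the sum of all values of `F` is zero,
then every point outside the graph has multiplicity less than `(2^n-1)/3`. -/
lemma core (hne : Even n) (F : V n → V n) (hA : IsAPN F) (hS0 : ∑ x, F x = 0)
    (p : V n × V n) (hp : p ∉ graph F) : excludeMult F p < (2 ^ n - 1) / 3 := by
  classical
  obtain ⟨a, b⟩ := p
  have hab : F a ≠ b := fun h => hp ((mem_graph F (a, b)).2 h.symm)
  set B := ((graph F).powersetCard 3).filter fun T => ∑ q ∈ T, q = (a, b) with hB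
  have hm : excludeMult F (a, b) = B.card := rfl
  have hBp : ∀ S ∈ B, S ⊆ graph F ∧ S.card = 3 ∧ ∑ q ∈ S, q = (a, b) := by
    intro S hS
    rw [hB, Finset.mem_filter, Finset.mem_powersetCard] at hS
    exact ⟨hS.1.1, hS.1.2, hS.2⟩
  set g0 : V n × V n := (a, F a) with hg0
  have hg0G : g0 ∈ graph F := (mem_graph F g0).2 rfl
  -- `g0` lies in no triple
  have hg0S : ∀ S ∈ B, g0 ∉ S := by
    intro S hS hg
    obtain ⟨h1, h2, h3⟩ := hBp S hS
    have hc : (S.erase g0).card = 2 := by rw [Finset.card_erase_of_mem hg, h2]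
    obtain ⟨h, k, hhk, hSe⟩ := Finset.card_eq_two.1 hc
    have hhS : h ∈ S := Finset.mem_of_mem_erase (by rw [hSe]; simp)
    have hkS : k ∈ S := Finset.mem_of_mem_erase (by rw [hSe]; simp)
    have e1 : g0 + (h + k) = (a, b) := by
      rw [← h3, ← Finset.add_sum_erase S (fun q => q) hg, hSe, Finset.sum_pair hhk]
    have e2 : a + (h.1 + k.1) = a := by
      have := congrArg Prod.fst e1; simpa [hg0] using this
    have e3 : h.1 + k.1 = 0 := by
      have : a + (h.1 + k.1) = a + 0 := by rw [e2, add_zero]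
      exact add_left_cancel this
    have e4 : h.1 = k.1 := (add_eq_zero' _ _).1 e3
    apply hhk
    apply Prod.ext e4
    rw [(mem_graph F h).1 (h1 hhS), (mem_graph F k).1 (h1 hkS), e4]
  set r : V n × V n → ℕ := fun g => (B.filter fun S => g ∈ S).card with hr
  have hr1 : ∀ g, r g ≤ 1 := by
    intro g
    rw [hr]
    refine Finset.card_le_one.2 fun S hS S' hS' => ?_
    rw [Finset.mem_filter] at hS hS'
    obtain ⟨h1, h2, h3⟩ := hBp S hS.1
    obtain ⟨h1', h2', h3'⟩ := hBp S' hS'.1
    exact triple_unique F hA (a, b) g S S' h1 h2 h3 h1' h2' h3' hS.2 hS'.2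
  have hr0 : r g0 = 0 := by
    rw [hr]
    change (B.filter fun S => g0 ∈ S).card = 0
    rw [Finset.card_eq_zero, Finset.filter_eq_empty_iff]
    intro S hS
    exact hg0S S hS
  have hcount : ∑ g ∈ graph F, r g = 3 * B.card := by
    have h1 : ∀ g, r g = ∑ S ∈ B, if g ∈ S then 1 else 0 := by
      intro g; rw [hr]; exact Finset.card_filter _ _
    rw [Finset.sum_congr rfl fun g _ => h1 g, Finset.sum_comm]
    have h2 : ∀ S ∈ B, (∑ g ∈ graph F, if g ∈ S then 1 else 0) = 3 := by
      intro S hS
      obtain ⟨h3, h4, -⟩ := hBp S hS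
      rw [← Finset.card_filter, Finset.filter_mem_eq_inter, Finset.inter_eq_right.2 h3, h4]
    rw [Finset.sum_congr rfl h2, Finset.sum_const, smul_eq_mul, mul_comm]
  have hgcard : (graph F).card = 2 ^ n := by
    unfold graph
    rw [Finset.card_image_of_injective _ (fun x y h => (Prod.ext_iff.1 h).1), Finset.card_univ,
      card_V]
  have herase : ∑ g ∈ (graph F).erase g0, r g = 3 * B.card := by
    rw [← hcount, ← Finset.add_sum_erase _ _ hg0G, hr0, zero_add]
  have hcard' : ((graph F).erase g0).card = 2 ^ n - 1 := by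
    rw [Finset.card_erase_of_mem hg0G, hgcard]
  have hle : 3 * B.card ≤ 2 ^ n - 1 := by
    rw [← herase, ← hcard', Finset.card_eq_sum_ones]
    exact Finset.sum_le_sum fun g _ => hr1 g
  -- divisibility of `2^n - 1` by `3`
  obtain ⟨q, hq⟩ : ∃ q, 2 ^ n - 1 = 3 * q := by
    obtain ⟨k, hk⟩ := hne
    have h1 : 2 ^ n = 4 ^ k := by
      rw [hk, ← two_mul, pow_mul]; norm_num
    have h2 : (3 : ℕ) ∣ 4 ^ k - 1 ^ k := Nat.sub_dvd_pow_sub_pow 4 1 k
    rw [one_pow] at h2
    obtain ⟨q, hq⟩ := h2
    exact ⟨q, by rw [h1, hq]⟩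
  rw [hm, hq, Nat.mul_div_cancel_left q (by norm_num)]
  by_contra hcon
  push Not at hcon
  have hBq : B.card = q := by omega
  -- all `r g = 1`
  have hall : ∀ g ∈ (graph F).erase g0, r g = 1 := by
    have h1 : ∑ g ∈ (graph F).erase g0, r g = ∑ g ∈ (graph F).erase g0, 1 := by
      rw [herase, ← Finset.card_eq_sum_ones, hcard', hq, hBq]
    exact (Finset.sum_eq_sum_iff_of_le fun g _ => hr1 g).1 h1
  -- the vector sum
  have hvec : ∑ g ∈ graph F, r g • g = B.card • ((a, b) : V n × V n) := by
    have h1 : ∀ g ∈ graph F, r g • g = ∑ S ∈ B, if g ∈ S then g else 0 := by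
      intro g _
      rw [← Finset.sum_filter, Finset.sum_const]
    rw [Finset.sum_congr rfl h1, Finset.sum_comm]
    have h2 : ∀ S ∈ B, (∑ g ∈ graph F, if g ∈ S then g else 0) = (a, b) := by
      intro S hS
      obtain ⟨h3, h4, h5⟩ := hBp S hS
      rw [← Finset.sum_filter, Finset.filter_mem_eq_inter, Finset.inter_eq_right.2 h3, h5]
    rw [Finset.sum_congr rfl h2, Finset.sum_const]
  have hvec2 : ∑ g ∈ (graph F).erase g0, g = B.card • ((a, b) : V n × V n) := by
    rw [← hvec, ← Finset.add_sum_erase _ _ hg0G, hr0, zero_smul, zero_add]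
    refine Finset.sum_congr rfl fun g hg => ?_
    rw [hall g hg, one_smul]
  have hodd : Odd B.card := by
    rw [hBq]
    by_contra hev
    rw [Nat.not_odd_iff_even] at hev
    obtain ⟨k, hk⟩ := hev
    obtain ⟨j, hj⟩ := hne
    by_cases hj0 : j = 0
    · -- `n = 0` : then `F a = b`
      subst hj0
      have hn0 : n = 0 := by omega
      subst hn0
      exact hab (Subsingleton.elim _ _)
    · have h1 : 2 ^ n = 2 * 2 ^ (n - 1) := by rw [← pow_succ']; congr 1; omega
      have h2 : 1 ≤ 2 ^ n := Nat.one_le_two_pow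
      omega
  have hsm : B.card • ((a, b) : V n × V n) = (a, b) := by
    obtain ⟨k, hk⟩ := hodd
    rw [hk, add_smul, one_smul, mul_comm, mul_smul, two_smul]
    have : ((a, b) : V n × V n) + (a, b) = 0 := by
      apply Prod.ext
      · exact add_self a
      · exact add_self b
    rw [this, smul_zero, zero_add]
  have htot : ∑ g ∈ graph F, g = g0 + (a, b) := by
    rw [← Finset.add_sum_erase _ _ hg0G, hvec2, hsm]
  have h2 : ∑ x, F x = F a + b := by
    have h3 := congrArg Prod.snd htot
    rw [Prod.snd_sum] at h3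
    unfold graph at h3
    rw [Finset.sum_image (fun x _ y _ h => (Prod.ext_iff.1 h).1)] at h3
    exact h3
  rw [hS0] at h2
  exact hab ((add_eq_zero' _ _).1 h2.symm)

/-- **Main theorem.** Let `n ≥ 4` be even and let `F : F_2^n → F_2^n` be an APN function that is
plateaued or quadratic.  Then every point outside the graph of `F` has exclude multiplicity strictly
less than `(2^n-1)/3`. -/
theorem result (n : ℕ) (hn : 4 ≤ n) (hne : Even n) (F : V n → V n) (hA : IsAPN F)
    (hF : IsPlateaued F ∨ IsQuadratic F) (p : V n × V n) (hp : p ∉ graph F) :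
    excludeMult F p < (2 ^ n - 1) / 3 := by
  rcases hF with h | h
  · exact core hne F hA (sum_zero_of_plateaued F (by omega) h) p hp
  · exact core hne F hA (sum_zero_of_quadratic F (by omega) h) p hp

end Pool.Agent.Results.MP_4cdc07_co.MaxMultiplicity
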